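import Pool.Agent.Helper4.CI.Goals
import Pool.Agent.Helper72.Mono.VolHeight

/-!
# Piece I34 (MP_aa7fc1_ag): the volume of a Cayley simplex
-/

namespace Mono.CI.I34

open Finset Mono

variable {n : ℕ}

/-- The index does not change if a vector is added on which an integral form has the value one,
the form being zero on the set. -/
theorem idx_insert_height (B : Set (Fin n → ℤ)) (p : Fin n → ℤ) (f : (Fin n → ℤ) →+ ℤ)
    (hf0 : ∀ x ∈ B, f x = 0) (hp : f p = 1) : idx (insert p B) = idx B := by
  set E := AddSubgroup.closure B with hE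
  set E' := AddSubgroup.closure (insert p B) with hE'
  have hf : ∀ x ∈ E, f x = 0 := by
    intro x hx
    have : E ≤ f.ker := by
      rw [hE, AddSubgroup.closure_le]
      intro x hx
      exact (AddMonoidHom.mem_ker).mpr (hf0 x hx)
    exact (AddMonoidHom.mem_ker).mp (this hx)
  have hsf : ∀ x ∈ sat B, f x = 0 := by
    rintro x ⟨k, hk, hx⟩
    have := hf _ hx
    rw [map_zsmul, smul_eq_mul, mul_eq_zero] at this
    exact this.resolve_left hk
  have hEE' : E ≤ E' := AddSubgroup.closure_mono (Set.subset_insert _ _)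
  have hpE' : p ∈ E' := AddSubgroup.subset_closure (Set.mem_insert _ _)
  have hdec : ∀ x ∈ E', x - f x • p ∈ E := by
    intro x hx
    induction hx using AddSubgroup.closure_induction with
    | mem x hx =>
      rcases hx with rfl | hx
      · rw [hp, one_smul, sub_self]
        exact E.zero_mem
      · rw [hf0 x hx, zero_smul, sub_zero]
        exact AddSubgroup.subset_closure hx
    | zero =>
      rw [map_zero, zero_smul, sub_zero]
      exact E.zero_mem
    | add x y _ _ ihx ihy =>
      have e : (x + y) - f (x + y) • p = (x - f x • p) + (y - f y • p) := by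
        rw [map_add, add_smul]; abel
      rw [e]
      exact AddSubgroup.add_mem _ ihx ihy
    | neg x _ ihx =>
      have e : (-x) - f (-x) • p = -(x - f x • p) := by
        rw [map_neg, neg_smul]; abel
      rw [e]
      exact AddSubgroup.neg_mem _ ihx
  have hsat : sat (insert p B) = sat B ⊔ E' := by
    apply le_antisymm
    · rintro x ⟨k, hk, hx⟩
      have h1 := hdec _ hx
      have h2 : x - f x • p ∈ sat B := by
        refine ⟨k, hk, ?_⟩
        have e : k • (x - f x • p) = k • x - f (k • x) • p := by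
          rw [smul_sub, smul_smul, map_zsmul, smul_eq_mul]
        rw [e]
        exact h1
      have e : x = (x - f x • p) + f x • p := by abel
      rw [e]
      exact AddSubgroup.add_mem _ (AddSubgroup.mem_sup_left h2)
        (AddSubgroup.mem_sup_right (AddSubgroup.zsmul_mem _ hpE' _))
    · refine sup_le ?_ (closure_le_sat _)
      rintro x ⟨k, hk, hx⟩
      exact ⟨k, hk, hEE' hx⟩
  have hinf : E' ⊓ sat B = E := by
    apply le_antisymm
    · rintro x ⟨hx1, hx2⟩
      have h1 := hdec x hx1
      rw [hsf x hx2, zero_smul, sub_zero] at h1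
      exact h1
    · exact le_inf hEE' (closure_le_sat B)
  unfold idx
  rw [hsat]
  change E'.relIndex (sat B ⊔ E') = E.relIndex (sat B)
  rw [AddSubgroup.relIndex_sup_right, ← AddSubgroup.inf_relIndex_right, hinf]

/-- The index is invariant under automorphisms of the lattice. -/
theorem idx_equiv (e : (Fin n → ℤ) ≃+ (Fin n → ℤ)) (B B' : Set (Fin n → ℤ))
    (h : (AddSubgroup.closure B).map (e : (Fin n → ℤ) →+ (Fin n → ℤ)) = AddSubgroup.closure B') :
    idx B = idx B' := by
  have hs : (sat B).map (e : (Fin n → ℤ) →+ (Fin n → ℤ)) = sat B' := by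
    ext x
    constructor
    · rintro ⟨y, ⟨k, hk, hy⟩, rfl⟩
      refine ⟨k, hk, ?_⟩
      rw [← h]
      exact ⟨k • y, hy, map_zsmul _ _ _⟩
    · rintro ⟨k, hk, hx⟩
      refine ⟨e.symm x, ⟨k, hk, ?_⟩, e.apply_symm_apply x⟩
      rw [← h] at hx
      obtain ⟨y, hy, hyx⟩ := hx
      have : y = k • e.symm x := by
        rw [← map_zsmul, ← hyx]
        exact (e.symm_apply_apply y).symm
      rw [← this]
      exact hy
  unfold idx
  rw [← h, ← hs, AddSubgroup.relIndex_map_map_of_injective _ _ e.injective]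

variable {N k : ℕ}

/-- the sum of the `z`-coordinates -/
def fz : (Fin (N + k) → ℤ) →+ ℤ := ∑ j : Fin k, Pi.evalAddMonoidHom (fun _ => ℤ) (Fin.natAdd N j)

theorem fz_apply (x : Fin (N + k) → ℤ) : fz x = ∑ j : Fin k, x (Fin.natAdd N j) := by
  unfold fz
  rw [AddMonoidHom.finsetSum_apply]
  rfl

theorem lift_nat (c : Option (Fin k)) (u : Fin N → ℤ) (j : Fin k) :
    lift c u (Fin.natAdd N j) = ind c j := by
  unfold lift
  rw [Fin.append_right]

theorem fz_lift (c : Option (Fin k)) (u : Fin N → ℤ) : fz (lift c u) = if c = none then 0 else 1 := by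
  rw [fz_apply]
  simp only [lift_nat, ind]
  cases c with
  | none => simp
  | some i =>
    simp only [Option.some.injEq, reduceCtorEq, if_false]
    rw [Finset.sum_ite_eq Finset.univ i (fun _ => (1 : ℤ)), if_pos (Finset.mem_univ i)]

theorem nat_zero_iff (c : Option (Fin k)) (u : Fin N → ℤ) :
    (∀ j, lift c u (Fin.natAdd N j) = 0) ↔ c = none := by
  constructor
  · intro h
    cases c with
    | none => rfl
    | some i =>
      have := h i
      rw [lift_nat, ind, if_pos rfl] at this
      exact absurd this one_ne_zero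
  · rintro rfl j
    rw [lift_nat, ind, if_neg (by simp)]

/-- the unimodular map of `u₀` -/
def uni (u₀ : Fin (N + k) → ℤ) (h : fz u₀ = 0) : (Fin (N + k) → ℤ) ≃+ (Fin (N + k) → ℤ) where
  toFun x := x - fz x • u₀
  invFun x := x + fz x • u₀
  left_inv x := by
    show (x - fz x • u₀) + fz (x - fz x • u₀) • u₀ = x
    rw [map_sub, map_zsmul, h, smul_zero, sub_zero]
    abel
  right_inv x := by
    show (x + fz x • u₀) - fz (x + fz x • u₀) • u₀ = x
    rw [map_add, map_zsmul, h, smul_zero, add_zero]
    abel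
  map_add' x y := by
    rw [map_add, add_smul]
    abel

theorem volCay : VolCay := by
  intro N k ρ hρ
  set B : Set (Fin (N + k) → ℤ) := {x | ∃ u ∈ ρ, ∃ v ∈ ρ, (∀ j, u (Fin.natAdd N j) = 0) ∧
    (∀ j, v (Fin.natAdd N j) = 0) ∧ x = u - v} ∪ {x | x ∈ ρ ∧ ¬ ∀ j, x (Fin.natAdd N j) = 0}
    with hB
  by_cases hex : ∃ u₀ ∈ ρ, ∀ j, u₀ (Fin.natAdd N j) = 0
  · obtain ⟨u₀, hu₀, hz₀⟩ := hex
    have hf0 : fz u₀ = 0 := by
      rw [fz_apply]
      exact Finset.sum_eq_zero fun j _ => hz₀ j
    show idx B = idx {x | ∃ u ∈ ρ, ∃ v ∈ ρ, x = u - v}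
    apply idx_equiv (uni u₀ hf0)
    have hval : ∀ x ∈ ρ, (∀ j, x (Fin.natAdd N j) = 0) → fz x = 0 := by
      intro x _ hx
      rw [fz_apply]
      exact Finset.sum_eq_zero fun j _ => hx j
    have hval1 : ∀ x ∈ ρ, (¬ ∀ j, x (Fin.natAdd N j) = 0) → fz x = 1 := by
      intro x hx hne
      obtain ⟨c, u, rfl⟩ := hρ x hx
      rw [nat_zero_iff] at hne
      rw [fz_lift, if_neg hne]
    apply le_antisymm
    · rw [AddMonoidHom.map_closure, AddSubgroup.closure_le]
      rintro _ ⟨x, hx, rfl⟩
      show x - fz x • u₀ ∈ _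
      rcases hx with ⟨u, hu, v, hv, hu0, hv0, rfl⟩ | ⟨hx, hne⟩
      · rw [map_sub, hval u hu hu0, hval v hv hv0, sub_zero, zero_smul, sub_zero]
        exact AddSubgroup.subset_closure ⟨u, hu, v, hv, rfl⟩
      · rw [hval1 x hx hne, one_smul]
        exact AddSubgroup.subset_closure ⟨x, hx, u₀, hu₀, rfl⟩
    · rw [AddSubgroup.closure_le]
      have key : ∀ u ∈ ρ, u - u₀ ∈ (AddSubgroup.closure B).map
          ((uni u₀ hf0 : (Fin (N + k) → ℤ) ≃+ (Fin (N + k) → ℤ)) :
            (Fin (N + k) → ℤ) →+ (Fin (N + k) → ℤ)) := by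
        intro u hu
        by_cases hu0 : ∀ j, u (Fin.natAdd N j) = 0
        · refine ⟨u - u₀, AddSubgroup.subset_closure (Or.inl ⟨u, hu, u₀, hu₀, hu0, hz₀, rfl⟩), ?_⟩
          show (u - u₀) - fz (u - u₀) • u₀ = u - u₀
          rw [map_sub, hval u hu hu0, hf0, sub_zero, zero_smul, sub_zero]
        · refine ⟨u, AddSubgroup.subset_closure (Or.inr ⟨hu, hu0⟩), ?_⟩
          show u - fz u • u₀ = u - u₀
          rw [hval1 u hu hu0, one_smul]
      rintro _ ⟨u, hu, v, hv, rfl⟩
      have : u - v = (u - u₀) - (v - u₀) := by abel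
      rw [this]
      exact AddSubgroup.sub_mem _ (key u hu) (key v hv)
  · push Not at hex
    have hne : ∀ x ∈ ρ, ¬ ∀ j, x (Fin.natAdd N j) = 0 := by
      intro x hx hcon
      obtain ⟨j, hj⟩ := hex x hx
      exact hj (hcon j)
    have hBe : B = {x | x ∈ ρ} := by
      ext x
      constructor
      · rintro (⟨u, hu, v, hv, hu0, -, -⟩ | ⟨hx, -⟩)
        · exact absurd hu0 (hne u hu)
        · exact hx
      · intro hx
        exact Or.inr ⟨hx, hne x hx⟩
    show idx B = idx {x | ∃ u ∈ ρ, ∃ v ∈ ρ, x = u - v}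
    rcases ρ.eq_empty_or_nonempty with rfl | ⟨u₀, hu₀⟩
    · congr 1
      rw [hBe]
      ext x
      simp
    · have hval1 : ∀ x ∈ ρ, fz x = 1 := by
        intro x hx
        have := hne x hx
        obtain ⟨c, u, rfl⟩ := hρ x hx
        rw [nat_zero_iff] at this
        rw [fz_lift, if_neg this]
      rw [← idx_insert_height {x | ∃ u ∈ ρ, ∃ v ∈ ρ, x = u - v} u₀ fz ?_ (hval1 u₀ hu₀), hBe]
      · apply idx_congr
        apply le_antisymm
        · rw [AddSubgroup.closure_le]
          intro x hx
          have : x = (x - u₀) + u₀ := by abel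
          rw [this]
          refine AddSubgroup.add_mem _ (AddSubgroup.subset_closure ?_)
            (AddSubgroup.subset_closure (Set.mem_insert _ _))
          exact Set.mem_insert_of_mem _ ⟨x, hx, u₀, hu₀, rfl⟩
        · rw [AddSubgroup.closure_le]
          rintro x (rfl | ⟨u, hu, v, hv, rfl⟩)
          · exact AddSubgroup.subset_closure hu₀
          · exact AddSubgroup.sub_mem _ (AddSubgroup.subset_closure hu)
              (AddSubgroup.subset_closure hv)
      · rintro _ ⟨u, hu, v, hv, rfl⟩
        rw [map_sub, hval1 u hu, hval1 v hv, sub_self]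

theorem mem_cols {ρ : Finset (Fin (N + k) → ℤ)} {c : Option (Fin k)} {u : Fin N → ℤ}
    (h : lift c u ∈ ρ) : c ∈ cols ρ := by
  unfold cols
  rw [Finset.mem_filter]
  exact ⟨Finset.mem_univ _, lift c u, h, fun j => lift_nat c u j⟩

theorem volNewColour (h : VolCay) : VolNewColour := by
  intro N k ρ c u hρ hc
  cases c with
  | some j =>
    apply volHeight (N + k) ρ (lift (some j) u) (Fin.natAdd N j)
    · intro v hv
      obtain ⟨c', u', rfl⟩ := hρ v hv
      have hc' : c' ≠ some j := by
        intro h0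
        apply hc
        rw [← h0]
        exact mem_cols hv
      rw [lift_nat, ind, if_neg hc']
    · rw [lift_nat, ind, if_pos rfl]
  | none =>
    have hρ' : ∀ v ∈ insert (lift none u) ρ, ∃ c u, v = lift c u := by
      intro v hv
      rw [Finset.mem_insert] at hv
      rcases hv with rfl | hv
      · exact ⟨none, u, rfl⟩
      · exact hρ v hv
    have hne : ∀ x ∈ ρ, ¬ ∀ j, x (Fin.natAdd N j) = 0 := by
      intro x hx hcon
      obtain ⟨c', u', rfl⟩ := hρ x hx
      rw [nat_zero_iff] at hcon
      subst hcon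
      exact hc (mem_cols hx)
    rw [← h N k ρ hρ, ← h N k _ hρ']
    apply idx_congr
    apply le_antisymm
    · rw [AddSubgroup.closure_le]
      rintro x (⟨a, ha, b, hb, ha0, hb0, rfl⟩ | ⟨hx, hx0⟩)
      · rw [Finset.mem_insert] at ha hb
        have ha' : a = lift none u := by
          rcases ha with h1 | h1
          · exact h1
          · exact absurd ha0 (hne a h1)
        have hb' : b = lift none u := by
          rcases hb with h1 | h1
          · exact h1
          · exact absurd hb0 (hne b h1)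
        rw [ha', hb', sub_self]
        exact AddSubgroup.zero_mem _
      · rw [Finset.mem_insert] at hx
        rcases hx with h1 | h1
        · exfalso
          apply hx0
          rw [h1, nat_zero_iff]
        · exact AddSubgroup.subset_closure (Or.inr ⟨h1, hx0⟩)
    · rw [AddSubgroup.closure_le]
      rintro x (⟨a, ha, b, hb, ha0, hb0, rfl⟩ | ⟨hx, hx0⟩)
      · exact absurd ha0 (hne a ha)
      · exact AddSubgroup.subset_closure (Or.inr ⟨Finset.mem_insert_of_mem hx, hx0⟩)

end Mono.CI.I34
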