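import Pool.Agent.Helper4.CI.Goals
import Pool.Agent.Helper20.Mono.CellDecomp

/-!
# Piece V2 (MP_aa7fc1_ag): decomposition of the cone over a Cayley cell into open simplices
-/

namespace Mono.CI.V2C

open Finset Filter Topology Pointwise Mono Mono.Cell20

variable {N k n : ℕ}

/-- the sum of the `z`-coordinates -/
def zr (x : Fin (N + k) → ℝ) : ℝ := ∑ j : Fin k, x (Fin.natAdd N j)

theorem zr_smul (a : ℝ) (x : Fin (N + k) → ℝ) : zr (a • x) = a * zr x := by
  unfold zr
  rw [Finset.mul_sum]
  rfl

theorem zr_sum {ι : Type*} (s : Finset ι) (f : ι → Fin (N + k) → ℝ) :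
    zr (∑ i ∈ s, f i) = ∑ i ∈ s, zr (f i) := by
  unfold zr
  rw [Finset.sum_comm]
  refine Finset.sum_congr rfl fun j _ => ?_
  rw [Finset.sum_apply]

theorem lift_nat (c : Option (Fin k)) (u : Fin N → ℤ) (j : Fin k) :
    lift c u (Fin.natAdd N j) = ind c j := by
  unfold lift
  rw [Fin.append_right]

theorem lift_cast (c : Option (Fin k)) (u : Fin N → ℤ) (i : Fin N) :
    lift c u (Fin.castAdd k i) = u i := by
  unfold lift
  rw [Fin.append_left]

theorem ind_none (j : Fin k) : ind (none : Option (Fin k)) j = 0 := by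
  rw [ind, if_neg (by simp)]

theorem ind_some_self (j : Fin k) : ind (some j) j = 1 := by
  rw [ind, if_pos rfl]

theorem ind_inj {c c' : Option (Fin k)} (h : ind c = ind c') : c = c' := by
  cases c with
  | none =>
    cases c' with
    | none => rfl
    | some j =>
      have := congrFun h j
      rw [ind_none, ind_some_self] at this
      exact absurd this.symm one_ne_zero
  | some i =>
    have h1 := congrFun h i
    rw [ind_some_self] at h1
    by_contra hne
    rw [ind, if_neg (fun h2 => hne h2.symm)] at h1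
    exact one_ne_zero h1

theorem lift_inj {c c' : Option (Fin k)} {u u' : Fin N → ℤ} (h : lift c u = lift c' u') :
    c = c' ∧ u = u' := by
  constructor
  · apply ind_inj
    funext j
    rw [← lift_nat c u j, ← lift_nat c' u' j, h]
  · funext i
    rw [← lift_cast c u i, ← lift_cast c' u' i, h]

theorem lift_zsmul (L : ℤ) (u : Fin N → ℤ) :
    L • lift (none : Option (Fin k)) u = lift none (L • u) := by
  funext i
  refine Fin.addCases (fun i => ?_) (fun j => ?_) i
  · rw [Pi.smul_apply, lift_cast, lift_cast, Pi.smul_apply]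
  · rw [Pi.smul_apply, lift_nat, lift_nat, ind_none, smul_zero]

theorem nat_notMem (K : Finset (Fin N)) (j : Fin k) : Fin.natAdd N j ∉ Kh k K := by
  unfold Kh
  rw [Finset.mem_image]
  rintro ⟨i, _, hi⟩
  have := congrArg Fin.val hi
  simp only [Fin.val_castAdd, Fin.val_natAdd] at this
  have := i.isLt
  omega

theorem pr_nat (K : Finset (Fin N)) (v : Fin (N + k) → ℤ) (j : Fin k) :
    pr (Kh k K) v (Fin.natAdd N j) = v (Fin.natAdd N j) := by
  unfold pr
  rw [if_neg (nat_notMem K j)]

theorem pr_zsmul (K : Finset (Fin n)) (a : ℤ) (v : Fin n → ℤ) : pr K (a • v) = a • pr K v := by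
  funext i
  simp only [pr, Pi.smul_apply]
  split_ifs <;> simp

theorem toR_zsmul (a : ℕ) (v : Fin n → ℤ) : toR ((a : ℤ) • v) = (a : ℝ) • toR v := by
  funext i
  simp [toR]

theorem zr_toR_lift (c : Option (Fin k)) (u : Fin N → ℤ) :
    zr (toR (lift c u)) = if c = none then 0 else 1 := by
  unfold zr
  simp only [toR_apply, lift_nat, ind]
  cases c with
  | none => simp
  | some i =>
    simp only [Option.some.injEq, reduceCtorEq, if_false]
    have : ∀ j : Fin k, (((if i = j then 1 else 0 : ℤ)) : ℝ) = if i = j then 1 else 0 := by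
      intro j
      split_ifs <;> simp
    simp only [this]
    rw [Finset.sum_ite_eq Finset.univ i (fun _ => (1 : ℝ)), if_pos (Finset.mem_univ i)]

theorem zr_pr (K : Finset (Fin N)) (v : Fin (N + k) → ℤ) :
    zr (toR (pr (Kh k K) v)) = zr (toR v) := by
  unfold zr
  refine Finset.sum_congr rfl fun j _ => ?_
  rw [toR_apply, toR_apply, pr_nat]

theorem mem_cay {φ : Option (Fin k) → Finset (Fin N → ℤ)} {C : Finset (Option (Fin k))}
    {v : Fin (N + k) → ℤ} : v ∈ cay φ C ↔ ∃ c ∈ C, ∃ u ∈ φ c, v = lift c u := by
  unfold cay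
  rw [Finset.mem_biUnion]
  constructor
  · rintro ⟨c, hc, hv⟩
    obtain ⟨u, hu, rfl⟩ := Finset.mem_image.1 hv
    exact ⟨c, hc, u, hu, rfl⟩
  · rintro ⟨c, hc, u, hu, rfl⟩
    exact ⟨c, hc, Finset.mem_image_of_mem _ hu⟩

theorem mem_scay {φ : Option (Fin k) → Finset (Fin N → ℤ)} {L : ℕ}
    {v : Fin (N + k) → ℤ} : v ∈ scay φ L ↔ (∃ u ∈ φ none, v = lift none ((L : ℤ) • u)) ∨
      ∃ j, ∃ u ∈ φ (some j), v = lift (some j) u := by
  unfold scay
  rw [Finset.mem_union, Finset.mem_biUnion, Finset.mem_image]
  constructor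
  · rintro (⟨u, hu, rfl⟩ | ⟨j, _, hv⟩)
    · exact Or.inl ⟨u, hu, rfl⟩
    · obtain ⟨u, hu, rfl⟩ := Finset.mem_image.1 hv
      exact Or.inr ⟨j, u, hu, rfl⟩
  · rintro (⟨u, hu, rfl⟩ | ⟨j, u, hu, rfl⟩)
    · exact Or.inl ⟨u, hu, rfl⟩
    · exact Or.inr ⟨j, Finset.mem_univ _, Finset.mem_image_of_mem _ hu⟩

theorem cay_mono {φ ψ : Option (Fin k) → Finset (Fin N → ℤ)} (h : ∀ c, φ c ⊆ ψ c)
    (C D : Finset (Option (Fin k))) (hCD : C ⊆ D) : cay φ C ⊆ cay ψ D := by
  intro v hv
  obtain ⟨c, hc, u, hu, rfl⟩ := mem_cay.1 hv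
  exact mem_cay.2 ⟨c, hCD hc, u, h c hu, rfl⟩

/-- the preimage of a face of `Φ'` -/
theorem face_lift {A : Option (Fin k) → Finset (Fin N → ℤ)} {b : Fin N → ℝ}
    {L : ℕ} {b' : Fin (N + k) → ℝ} {Z : Finset (Fin (N + k) → ℤ)} {Φ' Φ : Fan (N + k)}
    (h3 : ScaleRel) (hT : TriC A b L b' Z Φ' Φ) {ρ' : Finset (Fin (N + k) → ℤ)}
    (hρ' : ρ' ∈ Φ'.faces) :
    ∃ ρ ∈ Φ.faces, ρ.image (up L (Hset A Z)) = ρ' ∧ ρ ∩ Z = ρ' ∩ Z ∧
      (ρ \ Z).image (up L (Hset A Z)) = ρ' \ Z := by
  classical
  obtain ⟨s1, s2, s3, s4, s5, s6, s7, s8, s9, s10, s11⟩ := h3 N k A b L b' Z Φ' Φ hT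
  have hsub : ρ' ⊆ Φ'.vert := by
    rw [Fan.mem_faces] at hρ'
    exact Fan.IsFace.subset_vert Φ' hρ'
  set ρ := Φ.vert.filter (fun u => up L (Hset A Z) u ∈ ρ') with hρ
  have him : ρ.image (up L (Hset A Z)) = ρ' := by
    ext v
    rw [Finset.mem_image]
    constructor
    · rintro ⟨u, hu, rfl⟩
      exact (Finset.mem_filter.1 hu).2
    · intro hv
      have := hsub hv
      rw [← s2, Finset.mem_image] at this
      obtain ⟨u, hu, rfl⟩ := this
      exact ⟨u, Finset.mem_filter.2 ⟨hu, hv⟩, rfl⟩
  have hZ : Z ⊆ Hset A Z := Finset.subset_union_left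
  have hface : ρ ∈ Φ.faces := by
    rw [s9 ρ (Finset.filter_subset _ _), him]
    exact hρ'
  have hupZ : ∀ u ∈ Φ.vert, (up L (Hset A Z) u ∈ Z ↔ u ∈ Z) := s4
  refine ⟨ρ, hface, him, ?_, ?_⟩
  · ext u
    rw [Finset.mem_inter, Finset.mem_inter]
    constructor
    · rintro ⟨h1, h2⟩
      have h3 := (Finset.mem_filter.1 h1).2
      rw [up, if_pos (hZ h2)] at h3
      exact ⟨h3, h2⟩
    · rintro ⟨h1, h2⟩
      refine ⟨?_, h2⟩
      rw [← him, Finset.mem_image] at h1
      obtain ⟨v, hv, hvu⟩ := h1
      have hv' := (Finset.mem_filter.1 hv).1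
      have h4 : v ∈ Z := (hupZ v hv').1 (by rw [hvu]; exact h2)
      rw [up, if_pos (hZ h4)] at hvu
      rw [← hvu]
      exact hv
  · ext v
    rw [Finset.mem_image, Finset.mem_sdiff, ← him, Finset.mem_image]
    constructor
    · rintro ⟨u, hu, rfl⟩
      rw [Finset.mem_sdiff] at hu
      exact ⟨⟨u, hu.1, rfl⟩, fun h => hu.2 ((hupZ u (Finset.mem_filter.1 hu.1).1).1 h)⟩
    · rintro ⟨⟨u, hu, rfl⟩, h⟩
      exact ⟨u, Finset.mem_sdiff.2 ⟨hu, fun h2 => h ((hupZ u (Finset.mem_filter.1 hu).1).2 h2)⟩,
        rfl⟩

theorem cellDecompC (h1 : CellScale) (h3 : ScaleRel) : CellDecompC := by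
  classical
  intro N k A b L b' Z Φ' Φ hT K
  refine ⟨?_, ?_⟩
  · intro φ hφ C x t ht
    constructor
    · intro hx
      obtain ⟨s1, s2, s3, s4, s5, s6, s7, s8, s9, s10, s11⟩ := h3 N k A b L b' Z Φ' Φ hT
      have hφA : ∀ c, φ c ⊆ A c := by
        have := (Finset.mem_filter.1 hφ).1
        rw [Fintype.mem_piFinset] at this
        exact fun c => Finset.mem_powerset.1 (this c)
      have hL2 : (2 : ℝ) ≤ L := by exact_mod_cast hT.two_le
      have hL0 : (0 : ℝ) < L := by linarith
      -- convex combination
      obtain ⟨z, hz, hzx⟩ := Set.mem_smul_set.1 hx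
      have hz' : z ∈ convexHull ℝ (((projS (Kh k K) (cay φ C)).image toR :
          Finset (Fin (N + k) → ℝ)) : Set (Fin (N + k) → ℝ)) := by
        rwa [Finset.coe_image]
      rw [Finset.mem_convexHull'] at hz'
      obtain ⟨wt, hw0, hw1, hwz⟩ := hz'
      rw [Finset.sum_image (fun a _ b _ h => toR_injective h)] at hw1 hwz
      set P := projS (Kh k K) (cay φ C) with hP
      set y : (Fin (N + k) → ℤ) → ℝ := fun w => t * wt (toR w) with hy
      have hy0 : ∀ w ∈ P, 0 ≤ y w := fun w hw =>
        mul_nonneg ht.le (hw0 _ (Finset.mem_image_of_mem _ hw))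
      have hyt : ∑ w ∈ P, y w = t := by
        rw [hy, ← Finset.mul_sum, hw1, mul_one]
      have hyx : x = ∑ w ∈ P, y w • toR w := by
        rw [← hzx, ← hwz, Finset.smul_sum]
        refine Finset.sum_congr rfl fun w _ => ?_
        rw [smul_smul]
      have hPmem : ∀ w ∈ P, ∃ c ∈ C, ∃ u ∈ φ c, w = pr (Kh k K) (lift c u) := by
        intro w hw
        rw [hP, projS_eq] at hw
        obtain ⟨v, hv, rfl⟩ := Finset.mem_image.1 hw
        obtain ⟨c, hc, u, hu, rfl⟩ := mem_cay.1 hv
        exact ⟨c, hc, u, hu, rfl⟩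
      have hzr01 : ∀ w ∈ P, zr (toR w) = 0 ∨ zr (toR w) = 1 := by
        intro w hw
        obtain ⟨c, hc, u, hu, rfl⟩ := hPmem w hw
        rw [zr_pr, zr_toR_lift]
        split_ifs
        · exact Or.inl rfl
        · exact Or.inr rfl
      -- the scaling
      set dl : (Fin (N + k) → ℤ) → ℝ := fun w => (L : ℝ) - (L - 1) * zr (toR w) with hdl
      have hdlpos : ∀ w ∈ P, 0 < dl w := by
        intro w hw
        rcases hzr01 w hw with h | h
        · simp only [hdl, h]
          linarith
        · simp only [hdl, h]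
          linarith
      have hdlinv : ∀ w ∈ P, (dl w)⁻¹ = 1 / L + (1 - 1 / L) * zr (toR w) := by
        intro w hw
        rcases hzr01 w hw with h | h
        · simp only [hdl, h]
          simp
        · simp only [hdl, h]
          have : (L : ℝ) - (L - 1) * 1 = 1 := by ring
          rw [this]
          ring
      have hmemS : ∀ w ∈ P, dl w • toR w ∈
          toR '' (projS (Kh k K) (scay φ L) : Set (Fin (N + k) → ℤ)) := by
        intro w hw
        obtain ⟨c, hc, u, hu, rfl⟩ := hPmem w hw
        have hzz : zr (toR (pr (Kh k K) (lift c u))) = if c = none then 0 else 1 := by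
          rw [zr_pr, zr_toR_lift]
        cases c with
        | none =>
          rw [if_pos rfl] at hzz
          refine ⟨pr (Kh k K) (lift none ((L : ℤ) • u)), ?_, ?_⟩
          · rw [projS_eq]
            exact Finset.mem_coe.2 (Finset.mem_image_of_mem _ (mem_scay.2 (Or.inl ⟨u, hu, rfl⟩)))
          · rw [← lift_zsmul, pr_zsmul, toR_zsmul]
            simp only [hdl, hzz]
            ring_nf
        | some j =>
          rw [if_neg (by simp)] at hzz
          refine ⟨pr (Kh k K) (lift (some j) u), ?_, ?_⟩
          · rw [projS_eq]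
            exact Finset.mem_coe.2 (Finset.mem_image_of_mem _
              (mem_scay.2 (Or.inr ⟨j, u, hu, rfl⟩)))
          · simp only [hdl, hzz]
            have : (L : ℝ) - (L - 1) * 1 = 1 := by ring
            rw [this, one_smul]
      set S : ℝ := zr x with hS
      have hSy : S = ∑ w ∈ P, y w * zr (toR w) := by
        rw [hS, hyx, zr_sum]
        exact Finset.sum_congr rfl fun w _ => zr_smul _ _
      have hS0 : 0 ≤ S := by
        rw [hSy]
        refine Finset.sum_nonneg fun w hw => mul_nonneg (hy0 w hw) ?_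
        rcases hzr01 w hw with h | h
        · rw [h]
        · rw [h]
          exact zero_le_one
      set t' : ℝ := ∑ w ∈ P, y w * (dl w)⁻¹ with ht'
      have ht'e : t' = t / L + (1 - 1 / L) * S := by
        rw [ht', hSy, ← hyt, Finset.sum_div, Finset.mul_sum, ← Finset.sum_add_distrib]
        refine Finset.sum_congr rfl fun w hw => ?_
        rw [hdlinv w hw]
        ring
      have hL1 : 0 ≤ 1 - 1 / (L : ℝ) := by
        have : 1 / (L : ℝ) ≤ 1 := by
          rw [div_le_one hL0]
          linarith
        linarith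
      have ht'0 : 0 < t' := by
        rw [ht'e]
        have h5 := div_pos ht hL0
        have h6 := mul_nonneg hL1 hS0
        linarith
      have hx' : x ∈ t' • convexHull ℝ
          (toR '' (projS (Kh k K) (scay φ L) : Set (Fin (N + k) → ℤ))) := by
        refine Set.mem_smul_set.2 ⟨t'⁻¹ • x, ?_, by
          rw [smul_smul, mul_inv_cancel₀ ht'0.ne', one_smul]⟩
        have e1 : t'⁻¹ • x = ∑ w ∈ P, (t'⁻¹ * (y w * (dl w)⁻¹)) • (dl w • toR w) := by
          rw [hyx, Finset.smul_sum]
          refine Finset.sum_congr rfl fun w hw => ?_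
          rw [smul_smul, smul_smul]
          congr 1
          have := (hdlpos w hw).ne'
          field_simp
        rw [e1]
        refine (convex_convexHull ℝ _).sum_mem ?_ ?_ ?_
        · intro w hw
          exact mul_nonneg (inv_nonneg.2 ht'0.le) (mul_nonneg (hy0 w hw)
            (inv_nonneg.2 (hdlpos w hw).le))
        · rw [← Finset.mul_sum, ← ht', inv_mul_cancel₀ ht'0.ne']
        · intro w hw
          exact subset_convexHull ℝ _ (hmemS w hw)
      -- the landed decomposition
      have hcell := h1 N k A b L b' Z Φ' Φ hT K φ hφ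
      obtain ⟨ρ', hρ', hK', hsub', c', hc', hxc', hct'⟩ :=
        (cellDecomp (N + k) (scay A L) Z b' Φ' hT.tri hT.bfan hT.pos (Kh k K) (scay φ L) hcell
          x t' ht'0).1.1 hx'
      obtain ⟨ρ, hρ, him, hρZ, himZ⟩ := face_lift h3 hT hρ'
      have hK : ρ ∩ Z = eK (Kh k K) := by rw [hρZ, hK']
      have hρi : Indep ρ := Fan.IsFace.indep Φ ((Fan.mem_faces Φ).1 hρ)
      have hρi' : Indep ρ' := Fan.IsFace.indep Φ' ((Fan.mem_faces Φ').1 hρ')
      have hρv : ρ ⊆ Φ.vert := Fan.IsFace.subset_vert Φ ((Fan.mem_faces Φ).1 hρ)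
      -- the elements of `ρ \ Z`
      have hel : ∀ v ∈ ρ \ Z, ∃ c, ∃ u ∈ φ c, v = lift c u := by
        intro v hv
        rw [Finset.mem_sdiff] at hv
        have hv1 := hρv hv.1
        rw [hT.vert, Finset.mem_union] at hv1
        have hv2 : v ∈ cay A univ := hv1.resolve_right hv.2
        have hv3 : up L (Hset A Z) v ∈ scay φ L := by
          apply hsub'
          rw [← himZ]
          exact Finset.mem_image_of_mem _ (Finset.mem_sdiff.2 hv)
        obtain ⟨c, _, u, hu, rfl⟩ := mem_cay.1 hv2
        refine ⟨c, u, ?_, rfl⟩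
        cases c with
        | none =>
          have h5 : lift none u ∉ Hset A Z := (s6 _ hv2).2 fun j => by rw [lift_nat, ind_none]
          rw [up, if_neg h5, lift_zsmul] at hv3
          rcases mem_scay.1 hv3 with ⟨u', hu', he⟩ | ⟨j, u', hu', he⟩
          · have h6 := (lift_inj he).2
            have h7 : u = u' := by
              funext i
              have := congrFun h6 i
              simp only [Pi.smul_apply, smul_eq_mul] at this
              exact mul_left_cancel₀ (by exact_mod_cast hL0.ne') this
            rw [h7]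
            exact hu'
          · exact absurd (lift_inj he).1 (by simp)
        | some j =>
          have h5 : lift (some j) u ∈ Hset A Z := by
            by_contra hcon
            have := (s6 _ hv2).1 hcon j
            rw [lift_nat, ind_some_self] at this
            exact one_ne_zero this
          rw [up, if_pos h5] at hv3
          rcases mem_scay.1 hv3 with ⟨u', hu', he⟩ | ⟨j', u', hu', he⟩
          · exact absurd (lift_inj he).1 (by simp)
          · obtain ⟨h6, h7⟩ := lift_inj he
            rw [h6, h7]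
            exact hu'
      have hdlv : ∀ v ∈ ρ \ Z, toR (up L (Hset A Z) v) = dl v • toR v ∧ (dl v = L ∨ dl v = 1) ∧
          (dl v = L ↔ ∀ j, v (Fin.natAdd N j) = 0) := by
        intro v hv
        obtain ⟨c, u, hu, rfl⟩ := hel v hv
        have hv2 : lift c u ∈ cay A univ := mem_cay.2 ⟨c, Finset.mem_univ _, u, hφA c hu, rfl⟩
        have hzz := zr_toR_lift c u
        cases c with
        | none =>
          have h5 : lift none u ∉ Hset A Z := (s6 _ hv2).2 fun j => by rw [lift_nat, ind_none]
          rw [if_pos rfl] at hzz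
          have h6 : dl (lift none u) = L := by
            simp only [hdl, hzz]
            ring
          refine ⟨?_, Or.inl h6, fun _ j => by rw [lift_nat, ind_none], fun _ => h6⟩
          rw [up, if_neg h5, toR_zsmul, h6]
        | some j =>
          have h5 : lift (some j) u ∈ Hset A Z := by
            by_contra hcon
            have := (s6 _ hv2).1 hcon j
            rw [lift_nat, ind_some_self] at this
            exact one_ne_zero this
          rw [if_neg (by simp)] at hzz
          have h6 : dl (lift (some j) u) = 1 := by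
            simp only [hdl, hzz]
            ring
          refine ⟨?_, Or.inr h6, fun h7 => ?_, fun h7 => ?_⟩
          · rw [up, if_pos h5, h6, one_smul]
          · rw [h6] at h7
            linarith
          · have := h7 j
            rw [lift_nat, ind_some_self] at this
            exact absurd this one_ne_zero
      -- rewriting the sums over `ρ \ Z`
      have hprup : ∀ v ∈ ρ \ Z, toR (pr (Kh k K) (up L (Hset A Z) v)) =
          dl v • toR (pr (Kh k K) v) := by
        intro v hv
        have h5 := (hdlv v hv).1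
        funext i
        have h6 := congrFun h5 i
        simp only [toR_apply, Pi.smul_apply, smul_eq_mul] at h6 ⊢
        unfold pr
        by_cases hi : i ∈ Kh k K
        · rw [if_pos hi, if_pos hi]
          simp
        · rw [if_neg hi, if_neg hi]
          exact h6
      have hupinj : Set.InjOn (up L (Hset A Z)) (ρ \ Z : Finset (Fin (N + k) → ℤ)) := by
        intro u hu v hv huv
        exact s1 u (hρv (Finset.mem_sdiff.1 (Finset.mem_coe.1 hu)).1) v
          (hρv (Finset.mem_sdiff.1 (Finset.mem_coe.1 hv)).1) huv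
      set e : (Fin (N + k) → ℤ) → ℝ := fun v => c' (pr (Kh k K) (up L (Hset A Z) v)) with he
      have hsumtr : ∀ (M : Type) [AddCommMonoid M] (f : (Fin (N + k) → ℤ) → M),
          ∑ u ∈ projS (Kh k K) (ρ' \ Z), f u =
            ∑ v ∈ ρ \ Z, f (pr (Kh k K) (up L (Hset A Z) v)) := by
        intro M _ f
        rw [projS_eq, Finset.sum_image (pr_inj hρi' hK'), ← himZ, Finset.sum_image hupinj]
      have hepos : ∀ v ∈ ρ \ Z, 0 < e v := by
        intro v hv
        apply hc'
        rw [projS_eq, ← himZ]
        exact Finset.mem_image_of_mem _ (Finset.mem_image_of_mem _ hv)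
      have hxv : x = ∑ v ∈ ρ \ Z, (e v * dl v) • toR (pr (Kh k K) v) := by
        rw [hxc', hsumtr]
        refine Finset.sum_congr rfl fun v hv => ?_
        rw [hprup v hv, smul_smul]
      have htv : ∑ v ∈ ρ \ Z, e v = t' := by
        rw [← hct', hsumtr]
      have hzrv : ∀ v ∈ ρ \ Z, (zr (toR v) = 0 ∨ zr (toR v) = 1) := by
        intro v hv
        obtain ⟨c, u, hu, rfl⟩ := hel v hv
        rw [zr_toR_lift]
        split_ifs
        · exact Or.inl rfl
        · exact Or.inr rfl
      have hSv : S = ∑ v ∈ ρ \ Z, e v * zr (toR v) := by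
        rw [hS, hxv, zr_sum]
        refine Finset.sum_congr rfl fun v hv => ?_
        rw [zr_smul, zr_pr]
        rcases hzrv v hv with h | h
        · rw [h]
          ring
        · simp only [hdl, h]
          ring
      have htot : ∑ v ∈ ρ \ Z, e v * dl v = t := by
        have e5 : ∑ v ∈ ρ \ Z, e v * dl v = L * ∑ v ∈ ρ \ Z, e v -
            (L - 1) * ∑ v ∈ ρ \ Z, e v * zr (toR v) := by
          rw [Finset.mul_sum, Finset.mul_sum, ← Finset.sum_sub_distrib]
          refine Finset.sum_congr rfl fun v _ => ?_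
          simp only [hdl]
          ring
        rw [e5, htv, ← hSv, ht'e]
        field_simp
        ring
      -- the colours
      have hcol : ρ \ Z ⊆ cay φ C := by
        intro v hv
        obtain ⟨c, u, hu, hvc⟩ := hel v hv
        rw [hvc]
        refine mem_cay.2 ⟨c, ?_, u, hu, rfl⟩
        by_contra hcC
        cases c with
        | none =>
          have hzz : ∀ w ∈ P, zr (toR w) = 1 := by
            intro w hw
            obtain ⟨c, hc, u, hu, rfl⟩ := hPmem w hw
            rw [zr_pr, zr_toR_lift, if_neg]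
            rintro rfl
            exact hcC hc
          have hSt : S = t := by
            rw [hSy, ← hyt]
            exact Finset.sum_congr rfl fun w hw => by rw [hzz w hw, mul_one]
          have ht't : t' = t := by
            rw [ht'e, hSt]
            ring
          have hzero : ∑ v ∈ ρ \ Z, e v * (1 - zr (toR v)) = 0 := by
            have e6 : ∑ v ∈ ρ \ Z, e v * (1 - zr (toR v)) =
                ∑ v ∈ ρ \ Z, e v - ∑ v ∈ ρ \ Z, e v * zr (toR v) := by
              rw [← Finset.sum_sub_distrib]
              exact Finset.sum_congr rfl fun v _ => by ring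
            rw [e6, htv, ← hSv, ht't, hSt, sub_self]
          have hnn : ∀ v ∈ ρ \ Z, 0 ≤ e v * (1 - zr (toR v)) := by
            intro v hv
            refine mul_nonneg (hepos v hv).le ?_
            rcases hzrv v hv with h | h
            · rw [h]
              norm_num
            · rw [h, sub_self]
          have h7 := (Finset.sum_eq_zero_iff_of_nonneg hnn).1 hzero v hv
          have h8 : zr (toR v) = 0 := by
            rw [hvc, zr_toR_lift, if_pos rfl]
          rw [h8, sub_zero, mul_one] at h7
          exact (hepos v hv).ne' h7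
        | some j =>
          have hx0 : x (Fin.natAdd N j) = 0 := by
            rw [hyx, Finset.sum_apply]
            refine Finset.sum_eq_zero fun w hw => ?_
            obtain ⟨c, hc, u, hu, rfl⟩ := hPmem w hw
            have h9 : c ≠ some j := by
              rintro rfl
              exact hcC hc
            rw [Pi.smul_apply, toR_apply, pr_nat, lift_nat, ind, if_neg h9]
            simp
          have hnn : ∀ v ∈ ρ \ Z, 0 ≤ (e v * dl v) * ((v (Fin.natAdd N j) : ℤ) : ℝ) := by
            intro v hv
            refine mul_nonneg (mul_nonneg (hepos v hv).le ?_) ?_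
            · rcases (hdlv v hv).2.1 with h | h
              · rw [h]
                exact hL0.le
              · rw [h]
                exact zero_le_one
            · obtain ⟨c, u, hu, rfl⟩ := hel v hv
              rw [lift_nat, ind]
              split_ifs <;> simp
          have hzero : ∑ v ∈ ρ \ Z, (e v * dl v) * ((v (Fin.natAdd N j) : ℤ) : ℝ) = 0 := by
            rw [← hx0, hxv, Finset.sum_apply]
            refine Finset.sum_congr rfl fun v _ => ?_
            rw [Pi.smul_apply, toR_apply, pr_nat, smul_eq_mul]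
          have h7 := (Finset.sum_eq_zero_iff_of_nonneg hnn).1 hzero v hv
          have h8 : ((v (Fin.natAdd N j) : ℤ) : ℝ) = 1 := by
            rw [hvc, lift_nat, ind_some_self]
            simp
          rw [h8, mul_one] at h7
          rcases mul_eq_zero.1 h7 with h9 | h9
          · exact (hepos v hv).ne' h9
          · rcases (hdlv v hv).2.1 with h | h
            · rw [h] at h9
              exact hL0.ne' h9
            · rw [h] at h9
              exact one_ne_zero h9
      -- the coefficients
      set cc : (Fin (N + k) → ℤ) → ℝ := fun w =>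
        if ∀ j, w (Fin.natAdd N j) = 0 then (L : ℝ) * c' ((L : ℤ) • w) else c' w with hcc
      have hccv : ∀ v ∈ ρ \ Z, cc (pr (Kh k K) v) = e v * dl v := by
        intro v hv
        obtain ⟨h5, h6, h7⟩ := hdlv v hv
        by_cases hz0 : ∀ j, v (Fin.natAdd N j) = 0
        · have h8 := h7.2 hz0
          have h9 : up L (Hset A Z) v = (L : ℤ) • v := by
            apply toR_injective
            rw [h5, h8, toR_zsmul]
          simp only [hcc, he]
          rw [if_pos (fun j => by rw [pr_nat]; exact hz0 j), h8, h9, pr_zsmul, mul_comm]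
        · have h8 : dl v = 1 := h6.resolve_left (fun h => hz0 (h7.1 h))
          have h9 : up L (Hset A Z) v = v := by
            apply toR_injective
            rw [h5, h8, one_smul]
          simp only [hcc, he]
          rw [if_neg (fun h => hz0 fun j => by rw [← pr_nat K v j]; exact h j), h8, h9, mul_one]
      refine ⟨ρ, hρ, hK, hcol, cc, ?_, ?_, ?_⟩
      · intro w hw
        rw [projS_eq] at hw
        obtain ⟨v, hv, rfl⟩ := Finset.mem_image.1 hw
        rw [hccv v hv]
        refine mul_pos (hepos v hv) ?_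
        rcases (hdlv v hv).2.1 with h | h
        · rw [h]
          exact hL0
        · rw [h]
          exact zero_lt_one
      · rw [projS_eq, Finset.sum_image (pr_inj hρi hK), hxv]
        exact Finset.sum_congr rfl fun v hv => by rw [hccv v hv]
      · rw [projS_eq, Finset.sum_image (pr_inj hρi hK), ← htot]
        exact Finset.sum_congr rfl fun v hv => hccv v hv
    · rintro ⟨ρ, _, _, hsub, c, hc, hx, hcN⟩
      have hsub' : projS (Kh k K) (ρ \ Z) ⊆ projS (Kh k K) (cay φ C) :=
        Finset.image_subset_image hsub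
      refine Set.mem_smul_set.2 ⟨t⁻¹ • x, ?_, by rw [smul_smul, mul_inv_cancel₀ ht.ne', one_smul]⟩
      rw [hx, Finset.smul_sum]
      have h1 : ∀ u ∈ projS (Kh k K) (ρ \ Z), t⁻¹ • c u • toR u = (t⁻¹ * c u) • toR u :=
        fun u _ => by rw [smul_smul]
      rw [Finset.sum_congr rfl h1]
      refine (convex_convexHull ℝ _).sum_mem ?_ ?_ ?_
      · intro u hu
        exact mul_nonneg (inv_nonneg.2 ht.le) (hc u hu).le
      · rw [← Finset.mul_sum, hcN, inv_mul_cancel₀ ht.ne']
      · intro u hu
        exact subset_convexHull ℝ _ (Set.mem_image_of_mem _ (Finset.mem_coe.2 (hsub' hu)))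
  · intro ρ hρ ρ' hρ' hK hK' _ _ c c' hc hc' heq
    exact Cell20.unique Φ (Kh k K) hρ hρ' hK hK' c c' hc hc' heq

end Mono.CI.V2C
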