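import Pool.Agent.Helper4.CI.Goals
import Pool.Agent.Helper57.CI.V2
import Pool.Agent.Helper75.Mono.CellVol
import Pool.Agent.Helper80.Mono.IdxProj

/-!
# Piece V3 (MP_aa7fc1_ag): the volumes of the Cayley cells
-/

namespace Mono.CI.V3C

open Finset Filter Topology Pointwise Mono Mono.CI.V2C

variable {N k n : ℕ}

/-- the sets of a cell are nonempty -/
theorem cell_nonempty {A : Option (Fin k) → Finset (Fin N → ℤ)} {K : Finset (Fin N)}
    {b : Fin N → ℝ} (hA : ∀ c, (A c).Nonempty) {φ : Option (Fin k) → Finset (Fin N → ℤ)}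
    (hφ : φ ∈ cellsC A K b) (c : Option (Fin k)) : (φ c).Nonempty := by
  classical
  obtain ⟨κ, l, -, -, -, hne, -, hj⟩ := (Finset.mem_filter.1 hφ).2
  cases c with
  | none => exact hne
  | some j =>
    rw [hj j]
    obtain ⟨v, hv, hvm⟩ := (A (some j)).exists_min_image (fun v => κ ⬝ᵥ toR v) (hA _)
    obtain ⟨w, hw, hwm⟩ := ((A (some j)).filter (fun w => κ ⬝ᵥ toR w = κ ⬝ᵥ toR v)).exists_min_image
      (fun v => l ⬝ᵥ toR v) ⟨v, Finset.mem_filter.2 ⟨hv, rfl⟩⟩
    rw [Finset.mem_filter] at hw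
    refine ⟨w, Finset.mem_filter.2 ⟨hw.1, fun w' hw' => ?_⟩⟩
    rcases lt_or_eq_of_le (hvm w' hw') with h | h
    · left
      rw [hw.2]
      exact h
    · right
      refine ⟨by rw [hw.2]; exact h, hwm w' (Finset.mem_filter.2 ⟨hw', h.symm⟩)⟩

theorem cell_sub {A : Option (Fin k) → Finset (Fin N → ℤ)} {K : Finset (Fin N)}
    {b : Fin N → ℝ} {φ : Option (Fin k) → Finset (Fin N → ℤ)}
    (hφ : φ ∈ cellsC A K b) (c : Option (Fin k)) : φ c ⊆ A c := by
  classical
  have := (Finset.mem_filter.1 hφ).1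
  rw [Fintype.mem_piFinset] at this
  exact Finset.mem_powerset.1 (this c)

theorem castAdd_mem_Kh {K : Finset (Fin N)} {i : Fin N} :
    Fin.castAdd k i ∈ Kh k K ↔ i ∈ K := by
  unfold Kh
  rw [Finset.mem_image]
  constructor
  · rintro ⟨i', hi', h⟩
    have : i' = i := by
      apply Fin.ext
      have := congrArg Fin.val h
      simpa using this
    rw [← this]
    exact hi'
  · intro h
    exact ⟨i, h, rfl⟩

theorem pr_lift (K : Finset (Fin N)) (c : Option (Fin k)) (u : Fin N → ℤ) :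
    S4.pr (Kh k K) (lift c u) = lift c (fun i => if i ∈ K then 0 else u i) := by
  funext i
  refine Fin.addCases (fun i => ?_) (fun j => ?_) i
  · rw [lift_cast]
    unfold S4.pr
    by_cases h : i ∈ K
    · rw [if_pos (castAdd_mem_Kh.2 h), if_pos h]
    · rw [if_neg (fun h' => h (castAdd_mem_Kh.1 h')), if_neg h, lift_cast]
  · rw [lift_nat]
    unfold S4.pr
    rw [if_neg (nat_notMem K j), lift_nat]

theorem projS_cay (K : Finset (Fin N)) (φ : Option (Fin k) → Finset (Fin N → ℤ))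
    (C : Finset (Option (Fin k))) : projS (Kh k K) (cay φ C) = cay (prC K φ) C := by
  classical
  ext v
  rw [S4.projS_eq, Finset.mem_image, mem_cay]
  constructor
  · rintro ⟨w, hw, rfl⟩
    obtain ⟨c, hc, u, hu, rfl⟩ := mem_cay.1 hw
    exact ⟨c, hc, _, Finset.mem_image_of_mem _ hu, pr_lift K c u⟩
  · rintro ⟨c, hc, u', hu', rfl⟩
    obtain ⟨u, hu, rfl⟩ := Finset.mem_image.1 hu'
    exact ⟨lift c u, mem_cay.2 ⟨c, hc, u, hu, rfl⟩, pr_lift K c u⟩

theorem idx_empty : idx (∅ : Set (Fin n → ℤ)) = 1 := by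
  have hs : sat (∅ : Set (Fin n → ℤ)) = ⊥ := by
    rw [eq_bot_iff]
    rintro x ⟨m, hm, hx⟩
    rw [AddSubgroup.closure_empty, AddSubgroup.mem_bot] at hx
    rw [AddSubgroup.mem_bot]
    exact (smul_eq_zero.1 hx).resolve_left hm
  unfold idx
  rw [hs, AddSubgroup.closure_empty]
  exact AddSubgroup.relIndex_self _

/-- the volume of a simplex -/
theorem volZ_eqC {A : Option (Fin k) → Finset (Fin N → ℤ)} {b : Fin N → ℝ}
    {L : ℕ} {b' : Fin (N + k) → ℝ} {Z : Finset (Fin (N + k) → ℤ)} {Φ' Φ : Fan (N + k)}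
    (hI : VolCay) (h3 : ScaleRel) (hT : TriC A b L b' Z Φ' Φ) {K : Finset (Fin N)}
    {ρ : Finset (Fin (N + k) → ℤ)} (hK : ρ ∩ Z = eK (Kh k K)) (hρA : ρ \ Z ⊆ cay A univ) :
    volZ (Hset A Z) ρ = vol (projS (Kh k K) (ρ \ Z)) := by
  classical
  obtain ⟨s1, s2, s3, s4, s5, s6, s7, s8, s9, s10, s11⟩ := h3 N k A b L b' Z Φ' Φ hT
  have hZH : Z ⊆ Hset A Z := Finset.subset_union_left
  have hmemK : ∀ x, (x ∈ ρ ∧ x ∈ Z) ↔ ∃ i ∈ Kh k K, x = Pi.single i 1 := by
    intro x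
    rw [← Finset.mem_inter, hK, eK, Finset.mem_image]
    constructor
    · rintro ⟨i, hi, rfl⟩
      exact ⟨i, hi, rfl⟩
    · rintro ⟨i, hi, rfl⟩
      exact ⟨i, hi, rfl⟩
  have hH : ∀ x ∈ ρ \ Z, (x ∈ Hset A Z ↔ ¬ ∀ j, x (Fin.natAdd N j) = 0) := by
    intro x hx
    rw [← s6 x (hρA hx), not_not]
  set B : Set (Fin (N + k) → ℤ) := {x | ∃ u ∈ ρ \ Z, ∃ v ∈ ρ \ Z,
      (∀ j, u (Fin.natAdd N j) = 0) ∧ (∀ j, v (Fin.natAdd N j) = 0) ∧ x = u - v} ∪
      {x | x ∈ ρ \ Z ∧ ¬ ∀ j, x (Fin.natAdd N j) = 0} with hB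
  have e1 : ({x | ∃ u ∈ ρ \ Hset A Z, ∃ v ∈ ρ \ Hset A Z, x = u - v} ∪
      {x | x ∈ ρ ∧ x ∈ Hset A Z} : Set (Fin (N + k) → ℤ)) =
      B ∪ {x | ∃ i ∈ Kh k K, x = Pi.single i 1} := by
    have hsd : ∀ x, x ∈ ρ \ Hset A Z ↔ x ∈ ρ \ Z ∧ ∀ j, x (Fin.natAdd N j) = 0 := by
      intro x
      constructor
      · intro hx
        rw [Finset.mem_sdiff] at hx
        have h1 : x ∈ ρ \ Z := Finset.mem_sdiff.2 ⟨hx.1, fun h => hx.2 (hZH h)⟩
        refine ⟨h1, ?_⟩
        by_contra hcon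
        exact hx.2 ((hH x h1).2 hcon)
      · rintro ⟨h1, h2⟩
        exact Finset.mem_sdiff.2 ⟨(Finset.mem_sdiff.1 h1).1, fun h => (hH x h1).1 h h2⟩
    ext x
    constructor
    · rintro (⟨u, hu, v, hv, rfl⟩ | ⟨hx, hxH⟩)
      · rw [hsd] at hu hv
        exact Or.inl (Or.inl ⟨u, hu.1, v, hv.1, hu.2, hv.2, rfl⟩)
      · by_cases hxZ : x ∈ Z
        · exact Or.inr ((hmemK x).1 ⟨hx, hxZ⟩)
        · have h1 : x ∈ ρ \ Z := Finset.mem_sdiff.2 ⟨hx, hxZ⟩
          exact Or.inl (Or.inr ⟨h1, (hH x h1).1 hxH⟩)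
    · rintro ((⟨u, hu, v, hv, hu0, hv0, rfl⟩ | ⟨hx, hx0⟩) | hx)
      · exact Or.inl ⟨u, (hsd u).2 ⟨hu, hu0⟩, v, (hsd v).2 ⟨hv, hv0⟩, rfl⟩
      · exact Or.inr ⟨(Finset.mem_sdiff.1 hx).1, (hH x hx).2 hx0⟩
      · have := (hmemK x).2 hx
        exact Or.inr ⟨this.1, hZH this.2⟩
  have hlift : ∀ v ∈ projS (Kh k K) (ρ \ Z), ∃ c u, v = lift c u := by
    intro v hv
    rw [S4.projS_eq] at hv
    obtain ⟨w, hw, rfl⟩ := Finset.mem_image.1 hv
    obtain ⟨c, _, u, hu, rfl⟩ := mem_cay.1 (hρA hw)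
    exact ⟨c, _, pr_lift K c u⟩
  have hprz : ∀ (v : Fin (N + k) → ℤ) (j : Fin k),
      S4.pr (Kh k K) v (Fin.natAdd N j) = v (Fin.natAdd N j) := fun v j => pr_nat K v j
  unfold volZ
  rw [e1, idxProj, ← hI N k _ hlift]
  congr 1
  ext x
  constructor
  · rintro ⟨_, ⟨u, hu, v, hv, hu0, hv0, rfl⟩ | ⟨hx, hx0⟩, rfl⟩
    · refine Or.inl ⟨S4.pr (Kh k K) u, Finset.mem_image_of_mem _ hu, S4.pr (Kh k K) v,
        Finset.mem_image_of_mem _ hv, fun j => ?_, fun j => ?_, S4.pr_sub _ u v⟩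
      · rw [hprz]
        exact hu0 j
      · rw [hprz]
        exact hv0 j
    · refine Or.inr ⟨Finset.mem_image_of_mem _ hx, fun h => hx0 fun j => ?_⟩
      have h5 : S4.pr (Kh k K) _ (Fin.natAdd N j) = 0 := h j
      rw [hprz] at h5
      exact h5
  · rintro (⟨u', hu', v', hv', hu0, hv0, rfl⟩ | ⟨hx, hx0⟩)
    · rw [S4.projS_eq] at hu' hv'
      obtain ⟨u, hu, rfl⟩ := Finset.mem_image.1 hu'
      obtain ⟨v, hv, rfl⟩ := Finset.mem_image.1 hv'
      refine ⟨u - v, Or.inl ⟨u, hu, v, hv, fun j => ?_, fun j => ?_, rfl⟩, S4.pr_sub _ u v⟩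
      · have := hu0 j
        rw [hprz] at this
        exact this
      · have := hv0 j
        rw [hprz] at this
        exact this
    · rw [S4.projS_eq] at hx
      obtain ⟨u, hu, rfl⟩ := Finset.mem_image.1 hx
      refine ⟨u, Or.inr ⟨hu, fun h => hx0 fun j => ?_⟩, rfl⟩
      rw [hprz]
      exact h j

theorem cellVolC (h0 : NvolDecomp) (h2 : CellDecompC) (hI : VolCay) (hD : DimCay)
    (hS : ScaleRel) : CellVolC := by
  classical
  intro N k A b L b' Z Φ' Φ hT K φ hφ C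
  obtain ⟨hdec, huniq⟩ := h2 N k A b L b' Z Φ' Φ hT K
  have hne := cell_nonempty hT.good.ne hφ
  have hsubA := cell_sub hφ
  have hcayA : ∀ C, cay φ C ⊆ cay A univ := fun C => cay_mono hsubA C univ (Finset.subset_univ _)
  by_cases hC : C = ∅
  · subst hC
    unfold volC
    rw [if_pos rfl]
    have hcay : cay φ ∅ = ∅ := by
      unfold cay
      rw [Finset.biUnion_empty]
    -- `eK` is a face
    obtain ⟨t, ht⟩ := hne none
    have hx : toR (S4.pr (Kh k K) (lift none t)) ∈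
        (1 : ℝ) • convexHull ℝ (toR '' (projS (Kh k K) (cay φ {none}) :
          Set (Fin (N + k) → ℤ))) := by
      rw [one_smul]
      refine subset_convexHull ℝ _ (Set.mem_image_of_mem _ (Finset.mem_coe.2 ?_))
      rw [S4.projS_eq]
      exact Finset.mem_image_of_mem _
        (mem_cay.2 ⟨none, Finset.mem_singleton_self _, t, ht, rfl⟩)
    obtain ⟨ρ₀, hρ₀, hK₀, -, -⟩ := (hdec φ hφ {none} _ 1 one_pos).1 hx
    have heK : eK (Kh k K) ⊆ ρ₀ := by
      rw [← hK₀]
      exact Finset.inter_subset_left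
    have heZ : eK (Kh k K) ⊆ Z := by
      rw [← hK₀]
      exact Finset.inter_subset_right
    have hface : eK (Kh k K) ∈ Φ.faces := by
      rw [Fan.mem_faces] at hρ₀ ⊢
      exact Fan.IsFace.subset Φ hρ₀ heK
    have hall : ∀ ρ : Finset (Fin (N + k) → ℤ), ρ ∩ Z = eK (Kh k K) → ρ \ Z ⊆ cay φ ∅ →
        ρ = eK (Kh k K) := by
      intro ρ h1 h3
      rw [hcay, Finset.subset_empty] at h3
      rw [← h1]
      ext u
      rw [Finset.mem_inter]
      constructor
      · intro hu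
        refine ⟨hu, ?_⟩
        by_contra hcon
        have : u ∈ ρ \ Z := Finset.mem_sdiff.2 ⟨hu, hcon⟩
        rw [h3] at this
        exact absurd this (Finset.notMem_empty _)
      · exact fun h => h.1
    have hsd : eK (Kh k K) \ Z = ∅ := Finset.sdiff_eq_empty_iff_subset.2 heZ
    by_cases hd : dimC (prC K φ) = 0
    · rw [if_pos hd]
      have hfil : Φ.faces.filter (fun ρ => ρ ∩ Z = eK (Kh k K) ∧ ρ \ Z ⊆ cay φ ∅ ∧
          (ρ \ Z).card = dimC (prC K φ) + (∅ : Finset (Option (Fin k))).card) =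
          {eK (Kh k K)} := by
        ext ρ
        rw [Finset.mem_filter, Finset.mem_singleton]
        constructor
        · rintro ⟨_, h1, h3, _⟩
          exact hall ρ h1 h3
        · rintro rfl
          refine ⟨hface, Finset.inter_eq_left.2 heZ, ?_, ?_⟩
          · rw [hsd]
            exact Finset.empty_subset _
          · rw [hsd, hd]
            rfl
      rw [hfil, Finset.sum_singleton]
      have hv := volZ_eqC hI hS hT (K := K) (ρ := eK (Kh k K)) (Finset.inter_eq_left.2 heZ)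
        (by rw [hsd]; exact Finset.empty_subset _)
      rw [hv, hsd]
      have : vol (projS (Kh k K) (∅ : Finset (Fin (N + k) → ℤ))) = 1 := by
        unfold vol
        have e : {x : Fin (N + k) → ℤ | ∃ u ∈ projS (Kh k K) (∅ : Finset (Fin (N + k) → ℤ)),
            ∃ v ∈ projS (Kh k K) (∅ : Finset (Fin (N + k) → ℤ)), x = u - v} = ∅ := by
          ext x
          simp [projS]
        rw [e, idx_empty]
      rw [this]
      rfl
    · rw [if_neg hd]
      symm
      apply Finset.sum_eq_zero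
      intro ρ hρ
      exfalso
      rw [Finset.mem_filter] at hρ
      obtain ⟨_, h1, h3, h4⟩ := hρ
      rw [hcay, Finset.subset_empty] at h3
      rw [h3] at h4
      simp only [Finset.card_empty, add_zero] at h4
      exact hd h4.symm
  · have hCne : C.Nonempty := Finset.nonempty_iff_ne_empty.2 hC
    unfold volC
    rw [if_neg hC]
    set Ψ := cay (prC K φ) C with hΨ
    have hproj : projS (Kh k K) (cay φ C) = Ψ := projS_cay K φ C
    set T := Φ.faces.filter (fun ρ => ρ ∩ Z = eK (Kh k K) ∧ ρ \ Z ⊆ cay φ C ∧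
      (ρ \ Z).Nonempty) with hTdef
    set R := T.image (fun ρ => projS (Kh k K) (ρ \ Z)) with hR
    have hTmem : ∀ ρ ∈ T, ρ ∈ Φ.faces ∧ ρ ∩ Z = eK (Kh k K) ∧ ρ \ Z ⊆ cay φ C ∧
        (ρ \ Z).Nonempty := fun ρ hρ => Finset.mem_filter.1 hρ
    have hTind : ∀ ρ ∈ Φ.faces, Indep ρ := fun ρ hρ =>
      Fan.IsFace.indep Φ ((Fan.mem_faces Φ).1 hρ)
    have hinj : Set.InjOn (fun ρ => projS (Kh k K) (ρ \ Z)) (T : Set _) := by
      intro ρ hρ ρ' hρ' he
      obtain ⟨f1, f2, f3, f4⟩ := hTmem ρ hρ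
      obtain ⟨g1, g2, g3, g4⟩ := hTmem ρ' hρ'
      have he' : projS (Kh k K) (ρ \ Z) = projS (Kh k K) (ρ' \ Z) := he
      refine huniq ρ f1 ρ' g1 f2 g2 (f3.trans (hcayA C)) (g3.trans (hcayA C)) (fun _ => 1)
        (fun _ => 1) (fun _ _ => one_pos) (fun _ _ => one_pos) ?_
      rw [he']
    have hnv : nvol Ψ = ∑ r ∈ R.filter (fun r => r.card = dimF Ψ + 1), (vol r : ℤ) := by
      apply h0 (N + k) Ψ R
      · intro r hr
        obtain ⟨ρ, hρ, rfl⟩ := Finset.mem_image.1 hr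
        obtain ⟨f1, f2, f3, f4⟩ := hTmem ρ hρ
        refine ⟨S4.proj_indep' (hTind ρ f1) f2, f4.image _, ?_⟩
        show projS (Kh k K) (ρ \ Z) ⊆ Ψ
        rw [← hproj]
        exact Finset.image_subset_image f3
      · intro x t ht
        rw [← hproj, hdec φ hφ C x t ht]
        constructor
        · rintro ⟨ρ, f1, f2, f3, c, hc, hx, hs⟩
          refine ⟨projS (Kh k K) (ρ \ Z), Finset.mem_image_of_mem _
            (Finset.mem_filter.2 ⟨f1, f2, f3, ?_⟩), c, hc, hx, hs⟩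
          by_contra hemp
          rw [Finset.not_nonempty_iff_eq_empty] at hemp
          rw [hemp] at hs
          simp [projS] at hs
          rw [← hs] at ht
          exact lt_irrefl _ ht
        · rintro ⟨r, hr, c, hc, hx, hs⟩
          obtain ⟨ρ, hρ, rfl⟩ := Finset.mem_image.1 hr
          obtain ⟨f1, f2, f3, f4⟩ := hTmem ρ hρ
          exact ⟨ρ, f1, f2, f3, c, hc, hx, hs⟩
      · intro r hr r' hr' c c' hc hc' he
        obtain ⟨ρ, hρ, rfl⟩ := Finset.mem_image.1 hr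
        obtain ⟨ρ', hρ', rfl⟩ := Finset.mem_image.1 hr'
        obtain ⟨f1, f2, f3, f4⟩ := hTmem ρ hρ
        obtain ⟨g1, g2, g3, g4⟩ := hTmem ρ' hρ'
        have := huniq ρ f1 ρ' g1 f2 g2 (f3.trans (hcayA C)) (g3.trans (hcayA C)) c c' hc hc' he
        rw [this]
    by_cases hdim : dimF Ψ + 1 = dimC (prC K φ) + C.card
    · rw [if_pos hdim, hnv]
      have hR2 : R.filter (fun r => r.card = dimF Ψ + 1) =
          (T.filter (fun ρ => (ρ \ Z).card = dimF Ψ + 1)).image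
            (fun ρ => projS (Kh k K) (ρ \ Z)) := by
        ext r
        constructor
        · intro hr0
          obtain ⟨hr, hc⟩ := Finset.mem_filter.1 hr0
          obtain ⟨ρ, hρ, rfl⟩ := Finset.mem_image.1 hr
          obtain ⟨f1, f2, f3, f4⟩ := hTmem ρ hρ
          refine Finset.mem_image.2 ⟨ρ, Finset.mem_filter.2 ⟨hρ, ?_⟩, rfl⟩
          rw [← S4.proj_card (hTind ρ f1) f2]
          exact hc
        · intro hr0
          obtain ⟨ρ, hρ, rfl⟩ := Finset.mem_image.1 hr0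
          rw [Finset.mem_filter] at hρ
          obtain ⟨f1, f2, f3, f4⟩ := hTmem ρ hρ.1
          refine Finset.mem_filter.2 ⟨Finset.mem_image_of_mem _ hρ.1, ?_⟩
          rw [S4.proj_card (hTind ρ f1) f2]
          exact hρ.2
      rw [hR2, Finset.sum_image]
      · have hTT : T.filter (fun ρ => (ρ \ Z).card = dimF Ψ + 1) =
            Φ.faces.filter (fun ρ => ρ ∩ Z = eK (Kh k K) ∧ ρ \ Z ⊆ cay φ C ∧
              (ρ \ Z).card = dimC (prC K φ) + C.card) := by
          ext ρ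
          constructor
          · intro h
            obtain ⟨h6, f5⟩ := Finset.mem_filter.1 h
            obtain ⟨f1, f2, f3, _⟩ := hTmem ρ h6
            exact Finset.mem_filter.2 ⟨f1, f2, f3, by rw [← hdim]; exact f5⟩
          · intro h
            obtain ⟨f1, f2, f3, f5⟩ := Finset.mem_filter.1 h
            refine Finset.mem_filter.2 ⟨Finset.mem_filter.2 ⟨f1, f2, f3, ?_⟩, by
              rw [hdim]; exact f5⟩
            apply Finset.card_pos.1
            omega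
        rw [hTT]
        refine Finset.sum_congr rfl fun ρ hρ => ?_
        rw [Finset.mem_filter] at hρ
        rw [volZ_eqC hI hS hT hρ.2.1 (hρ.2.2.1.trans (hcayA C))]
      · intro ρ hρ ρ' hρ' he
        exact hinj (Finset.mem_filter.1 (Finset.mem_coe.1 hρ)).1
          (Finset.mem_filter.1 (Finset.mem_coe.1 hρ')).1 he
    · rw [if_neg hdim]
      symm
      apply Finset.sum_eq_zero
      intro ρ hρ
      exfalso
      rw [Finset.mem_filter] at hρ
      obtain ⟨f1, f2, f3, f5⟩ := hρ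
      have hle := hD N k (prC K φ) C hCne (fun c => (hne c).image _)
      rw [← hΨ] at hle
      have hcp : 0 < C.card := Finset.card_pos.2 hCne
      have hρne : (ρ \ Z).Nonempty := Finset.card_pos.1 (by omega)
      have h6 := V2.card_le_dim (φ := Ψ) (τ := projS (Kh k K) (ρ \ Z))
        (by rw [← hproj]; exact Finset.image_subset_image f3) (S4.proj_indep' (hTind ρ f1) f2)
        (hρne.image _)
      rw [S4.proj_card (hTind ρ f1) f2] at h6
      omega

end Mono.CI.V3C
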